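import Pool.Agent.Helper76.WM.Main

/-!
# MP_b731ff_al: contracting self-similar groups and groups of bounded displacement permutations
-/

set_option autoImplicit false

namespace Pool.Agent.Helper76.WM

open Subgroup (closure centralizer)
open Filter
open scoped Pointwise

section Words

theorem ncard_words {α : Type*} [Finite α] (n : ℕ) :
    {u : List α | u.length = n}.ncard = Nat.card α ^ n := by
  classical
  have := Fintype.ofFinite α
  have h : {u : List α | u.length = n}.ncard = Nat.card (List.Vector α n) := rfl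
  rw [h, Nat.card_eq_fintype_card, card_vector, Nat.card_eq_fintype_card]

theorem finite_words {α : Type*} [Finite α] (n : ℕ) : {u : List α | u.length = n}.Finite :=
  List.finite_length_eq α n

end Words

section Tree

variable {α Γ : Type*} [Group Γ] [MulAction Γ (List α)]

/-- groups of automorphisms of a rooted tree are residually finite -/
theorem rf_of_tree [Finite α] (hfaith : ∀ g : Γ, (∀ w : List α, g • w = w) → g = 1)
    (hlen : ∀ (g : Γ) (w : List α), (g • w).length = w.length) (G : Subgroup Γ) (g : G)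
    (hg : g ≠ 1) : ∃ N : Subgroup G, N.Normal ∧ N.index ≠ 0 ∧ g ∉ N := by
  obtain ⟨w, hw⟩ : ∃ w : List α, g • w ≠ w := by
    by_contra hcon
    push Not at hcon
    exact hg (Subtype.ext (hfaith g hcon))
  let V := {u : List α // u.length = w.length}
  have hV : Finite V := (finite_words (α := α) w.length).to_subtype
  let f : G →* Equiv.Perm V :=
    { toFun := fun h =>
        { toFun := fun v => ⟨h • v.1, (hlen h v.1).trans v.2⟩
          invFun := fun v => ⟨h⁻¹ • v.1, (hlen (h⁻¹ : G) v.1).trans v.2⟩
          left_inv := fun v => Subtype.ext (inv_smul_smul h v.1)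
          right_inv := fun v => Subtype.ext (smul_inv_smul h v.1) }
      map_one' := Equiv.ext (fun v => Subtype.ext (one_smul G v.1))
      map_mul' := fun a b => Equiv.ext (fun v => Subtype.ext (mul_smul a b v.1)) }
  refine ⟨f.ker, inferInstance, ?_, ?_⟩
  · have : f.ker.FiniteIndex := inferInstance
    exact this.index_ne_zero
  · intro h
    rw [MonoidHom.mem_ker] at h
    have h1 : (f g ⟨w, rfl⟩ : V).1 = w := by rw [h]; rfl
    exact hw h1

variable (hfaith : ∀ g : Γ, (∀ w : List α, g • w = w) → g = 1)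
  (hlen : ∀ (g : Γ) (w : List α), (g • w).length = w.length)
  (sec : Γ → List α → Γ)
  (hsec : ∀ (g : Γ) (v w : List α), g • (v ++ w) = (g • v) ++ (sec g v) • w)

include hfaith

theorem eq_of_smul {g h : Γ} (hgh : ∀ w : List α, g • w = h • w) : g = h := by
  have : h⁻¹ * g = 1 := by
    apply hfaith
    intro w
    rw [mul_smul, hgh, inv_smul_smul]
  exact (inv_mul_eq_one.1 this).symm

include hlen hsec

theorem sec_nil (g : Γ) : sec g [] = g := by
  apply eq_of_smul hfaith
  intro w
  have h1 := hsec g [] w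
  have h2 : g • ([] : List α) = [] := List.eq_nil_of_length_eq_zero (by rw [hlen]; rfl)
  rw [h2, List.nil_append, List.nil_append] at h1
  exact h1.symm

theorem sec_mul (g h : Γ) (v : List α) : sec (g * h) v = sec g (h • v) * sec h v := by
  apply eq_of_smul hfaith
  intro w
  have h1 := hsec (g * h) v w
  rw [mul_smul, hsec h, hsec g, mul_smul] at h1
  rw [mul_smul]
  exact (List.append_cancel_left h1).symm

theorem sec_append (g : Γ) (v w : List α) : sec g (v ++ w) = sec (sec g v) w := by
  apply eq_of_smul hfaith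
  intro u
  have h1 := hsec g (v ++ w) u
  rw [List.append_assoc, hsec g v, hsec (sec g v) w, hsec g v w, List.append_assoc] at h1
  exact (List.append_cancel_left (List.append_cancel_left h1)).symm

/-- sections of long products -/
theorem sec_mem (E : Set Γ) (k : ℕ) (hk : ∀ g ∈ E * E, ∀ v : List α, v.length = k → sec g v ∈ E)
    (j : ℕ) : ∀ g ∈ E ^ (2 ^ j), ∀ v : List α, v.length = k * j → sec g v ∈ E := by
  induction j with
  | zero =>
    intro g hg v hv
    have hv0 : v = [] := List.eq_nil_of_length_eq_zero (by simpa using hv)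
    rw [hv0, sec_nil hfaith hlen sec hsec]
    simpa using hg
  | succ j ih =>
    intro g hg v hv
    rw [pow_succ 2 j, mul_two, pow_add] at hg
    obtain ⟨a, ha, b, hb, rfl⟩ := Set.mem_mul.1 hg
    have hv1 : (v.take (k * j)).length = k * j := by
      rw [List.length_take, hv]
      exact Nat.min_eq_left (Nat.mul_le_mul_left _ (Nat.le_succ j))
    have hv2 : (v.drop (k * j)).length = k := by
      rw [List.length_drop, hv, Nat.mul_succ]
      omega
    rw [← List.take_append_drop (k * j) v, sec_append hfaith hlen sec hsec,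
      sec_mul hfaith hlen sec hsec]
    refine hk _ (Set.mul_mem_mul ?_ ?_) _ hv2
    · exact ih a ha _ (by rw [hlen, hv1])
    · exact ih b hb _ hv1

/-- contracting groups have uniformly polynomial orbital growth -/
theorem polyOrb_of_contracting [Finite α] (N : Set Γ) (hN : N.Finite)
    (hcontr : ∀ g : Γ, ∃ m : ℕ, ∀ v : List α, m ≤ v.length → sec g v ∈ N) (G : Subgroup Γ) :
    PolyOrb G (List α) := by
  intro S hS
  set E : Set Γ := insert 1 (((fun g : G => (g : Γ)) '' S) ∪ N) with hE
  have hEf : E.Finite := ((hS.image _).union hN).insert 1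
  have hE1 : 1 ≤ E.ncard := by
    rw [Nat.one_le_iff_ne_zero, ne_eq, Set.ncard_eq_zero hEf]
    exact (Set.insert_nonempty _ _).ne_empty
  have hNE : N ⊆ E := fun z hz => Set.mem_insert_of_mem _ (Or.inr hz)
  have hSE : ((fun g : G => (g : Γ)) '' S) ⊆ E := fun z hz => Set.mem_insert_of_mem _ (Or.inl hz)
  obtain ⟨k, hk⟩ : ∃ k : ℕ, ∀ g ∈ E * E, ∀ v : List α, v.length = k → sec g v ∈ E := by
    choose m hm using hcontr
    obtain ⟨k, hk⟩ := ((hEf.mul hEf).image m).bddAbove
    exact ⟨k, fun g hg v hv => hNE (hm g v (hv ▸ hk ⟨g, hg, rfl⟩))⟩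
  obtain ⟨c, hc⟩ : ∃ c : ℕ, Nat.card α ≤ 2 ^ c := ⟨Nat.card α, Nat.lt_two_pow_self.le⟩
  refine ⟨E.ncard, c * k, ?_⟩
  rw [Filter.frequently_atTop]
  intro j
  refine ⟨2 ^ j, Nat.lt_two_pow_self.le, ?_⟩
  intro w
  have hsub : ((fun g : G => g • w) '' (S ^ (2 ^ j))) ⊆ ((fun g : Γ => g • w) '' (E ^ (2 ^ j))) := by
    rintro z ⟨g, hg, rfl⟩
    refine ⟨(g : Γ), ?_, rfl⟩
    have h1 : (G.subtype g) ∈ G.subtype '' (S ^ (2 ^ j)) := ⟨g, hg, rfl⟩
    rw [Set.image_pow] at h1
    exact Set.pow_subset_pow_left hSE h1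
  have hpow : ∀ i ≤ k * j, Nat.card α ^ i ≤ (2 ^ j) ^ (c * k) := by
    intro i hi
    calc Nat.card α ^ i ≤ (2 ^ c) ^ i := Nat.pow_le_pow_left hc i
      _ ≤ (2 ^ c) ^ (k * j) := Nat.pow_le_pow_right (by positivity) hi
      _ = (2 ^ j) ^ (c * k) := by
          rw [← pow_mul, ← pow_mul]
          congr 1
          ring
  have hEp : ∀ n : ℕ, (E ^ n).Finite := by
    intro n
    induction n with
    | zero =>
      rw [pow_zero]
      exact Set.finite_one
    | succ n ih =>
      rw [pow_succ]
      exact ih.mul hEf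
  refine (Set.ncard_le_ncard hsub ((hEp _).image _)).trans ?_
  rcases le_or_gt (k * j) w.length with hw | hw
  · -- long words
    set w₁ := w.take (k * j) with hw₁
    set w₂ := w.drop (k * j) with hw₂
    have hl₁ : w₁.length = k * j := by
      rw [hw₁, List.length_take]
      exact Nat.min_eq_left hw
    set F : Set (List α) := (fun p : List α × Γ => p.1 ++ p.2 • w₂) ''
      ({u : List α | u.length = k * j} ×ˢ E) with hF
    have hsub2 : ((fun g : Γ => g • w) '' (E ^ (2 ^ j))) ⊆ F := by
      rintro z ⟨g, hg, rfl⟩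
      refine ⟨(g • w₁, sec g w₁), ⟨?_, ?_⟩, ?_⟩
      · show (g • w₁).length = k * j
        rw [hlen, hl₁]
      · exact sec_mem hfaith hlen sec hsec E k hk j g hg w₁ hl₁
      · show (g • w₁) ++ sec g w₁ • w₂ = g • w
        rw [← hsec, hw₁, hw₂, List.take_append_drop]
    have hfin : ({u : List α | u.length = k * j} ×ˢ E).Finite := (finite_words _).prod hEf
    calc _ ≤ F.ncard := Set.ncard_le_ncard hsub2 (hfin.image _)
      _ ≤ ({u : List α | u.length = k * j} ×ˢ E).ncard := Set.ncard_image_le hfin
      _ = Nat.card α ^ (k * j) * E.ncard := by rw [Set.ncard_prod, ncard_words]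
      _ ≤ (2 ^ j) ^ (c * k) * E.ncard := Nat.mul_le_mul_right _ (hpow _ le_rfl)
      _ = _ := Nat.mul_comm _ _
  · -- short words
    have hsub2 : ((fun g : Γ => g • w) '' (E ^ (2 ^ j))) ⊆ {u : List α | u.length = w.length} := by
      rintro z ⟨g, hg, rfl⟩
      exact hlen g w
    calc _ ≤ {u : List α | u.length = w.length}.ncard :=
          Set.ncard_le_ncard hsub2 (finite_words _)
      _ = Nat.card α ^ w.length := ncard_words _
      _ ≤ 1 * (2 ^ j) ^ (c * k) := by
          rw [one_mul]
          exact hpow _ hw.le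
      _ ≤ _ := Nat.mul_le_mul_right _ hE1

end Tree

section Wobbling

/-- groups of bounded displacement permutations of spaces of polynomial growth -/
theorem polyOrb_of_bounded {G X : Type*} [Group G] [PseudoMetricSpace X] [MulAction G X]
    (C D : ℕ) (hX : ∀ (x : X) (r : ℕ), (Metric.closedBall x r).Finite ∧
      (Metric.closedBall x r).ncard ≤ C * (r + 1) ^ D)
    (hb : ∀ g : G, ∃ R : ℕ, ∀ x : X, dist (g • x) x ≤ R) : PolyOrb G X := by
  intro S hS
  choose R hR using hb
  obtain ⟨M, hM⟩ := (hS.image R).bddAbove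
  have hS' : ∀ n : ℕ, ∀ g ∈ S ^ n, ∀ x : X, dist (g • x) x ≤ n * M := by
    intro n
    induction n with
    | zero =>
      intro g hg x
      rw [pow_zero, Set.mem_one] at hg
      rw [hg]
      simp
    | succ n ih =>
      intro g hg x
      rw [pow_succ] at hg
      obtain ⟨a, ha, b, hb, rfl⟩ := Set.mem_mul.1 hg
      have h1 := ih a ha (b • x)
      have h2 : dist (b • x) x ≤ (M : ℝ) := (hR b x).trans (by exact_mod_cast hM ⟨b, hb, rfl⟩)
      have h3 := dist_triangle (a • b • x) (b • x) x
      rw [mul_smul]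
      push_cast
      linarith
  refine ⟨C * (M + 1) ^ D, D, ?_⟩
  refine Filter.Eventually.frequently ?_
  filter_upwards [Filter.eventually_ge_atTop 1] with n hn x
  have hsub : ((fun g : G => g • x) '' (S ^ n)) ⊆ Metric.closedBall x ((n * M : ℕ) : ℝ) := by
    rintro z ⟨g, hg, rfl⟩
    rw [Metric.mem_closedBall]
    push_cast
    exact hS' n g hg x
  calc _ ≤ (Metric.closedBall x ((n * M : ℕ) : ℝ)).ncard :=
        Set.ncard_le_ncard hsub (hX x _).1
    _ ≤ C * (n * M + 1) ^ D := (hX x _).2
    _ ≤ C * ((M + 1) * n) ^ D := by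
        refine Nat.mul_le_mul_left _ (Nat.pow_le_pow_left ?_ D)
        nlinarith
    _ = C * (M + 1) ^ D * n ^ D := by
        rw [mul_pow]
        ring

end Wobbling

end Pool.Agent.Helper76.WM
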