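import Pool.Agent.Helper76.WM.Max
import Pool.Agent.Helper78.WeakMin.Indep
import Pool.Agent.Helper78.WeakMin.Main0

/-!
# MP_b731ff_al: growth of groups all of whose subgroups are finite or of finite index
-/

set_option autoImplicit false

namespace Pool.Agent.Helper76.WM

open Subgroup (closure centralizer normalizer)
open scoped Pointwise
open Filter

section Classes

variable {H : Type*} [Group H]

/-- there are infinitely many classes of maximal finite subgroups -/
theorem exists_classes [Infinite H] [Group.FG H] (hFF : FF H) (htor : ∀ g : H, IsOfFinOrder g)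
    (hRF : ∀ g : H, g ≠ 1 → ∃ N : Subgroup H, N.Normal ∧ N.index ≠ 0 ∧ g ∉ N) (k : ℕ) :
    ∃ M : ℕ → Subgroup H, (∀ i < k, MaxFin (M i) ∧ M i ≠ ⊥) ∧
      ∀ i < k, ∀ j < i, ∀ g, M i ≠ cj g (M j) := by
  classical
  induction k with
  | zero => exact ⟨fun _ => ⊥, by simp, by simp⟩
  | succ k ih =>
    obtain ⟨M, hM1, hM2⟩ := ih
    have hfin : (⋃ i ∈ Finset.range k, (M i : Set H)).Finite := by
      refine Set.Finite.biUnion (Finset.finite_toSet _) ?_
      intro i hi
      have := (hM1 i (Finset.mem_range.1 hi)).1.1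
      exact Set.toFinite _
    obtain ⟨N, hN, hNi, hNY⟩ := Pool.Agent.Helper78.WeakMin.exists_normal_avoid hRF _ hfin
    have hNinf : Infinite N := Pool.Agent.Helper78.WeakMin.infinite_of_index_ne_zero N hNi
    obtain ⟨x, hx1⟩ := exists_ne (1 : N)
    have hx1' : (x : H) ≠ 1 := fun h => hx1 (Subtype.ext h)
    have hzf : Finite (Subgroup.zpowers (x : H)) := finite_zpowers.2 (htor x)
    obtain ⟨K, hK, hKx⟩ := exists_maxFin hFF _ hzf
    have hxK : (x : H) ∈ K := hKx (Subgroup.mem_zpowers _)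
    refine ⟨Function.update M k K, ?_, ?_⟩
    · intro i hi
      by_cases hik : i = k
      · subst hik
        rw [Function.update_self]
        exact ⟨hK, fun h => hx1' (Subgroup.mem_bot.1 (h ▸ hxK))⟩
      · rw [Function.update_of_ne hik]
        exact hM1 i (by omega)
    · intro i hi j hj g
      have hjk : j ≠ k := by omega
      rw [Function.update_of_ne hjk]
      by_cases hik : i = k
      · subst hik
        rw [Function.update_self]
        intro h
        have h1 : (x : H) ∈ cj g (M j) := h ▸ hxK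
        rw [mem_cj] at h1
        have h2 : g⁻¹ * x * g ∈ N := by
          have := hN.conj_mem x x.2 g⁻¹
          rwa [inv_inv] at this
        refine hNY _ ?_ ?_ h2
        · rw [Set.mem_iUnion₂]
          exact ⟨j, Finset.mem_range.2 hj, h1⟩
        · intro h3
          apply hx1'
          have e : (x : H) = g * (g⁻¹ * x * g) * g⁻¹ := by group
          rw [e, h3]
          group
      · rw [Function.update_of_ne hik]
        exact hM2 i (by omega) j hj g

/-- conjugates of the nontrivial elements of a malnormal subgroup by the elements of a finite set -/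
theorem count_conj [Group.FG H] (hFF : FF H)
    (hc : ∀ x : H, x ≠ 1 → Finite (centralizer ({x} : Set H)))
    (hnil : ∀ F : Subgroup H, Finite F → Group.IsNilpotent F)
    {M : Subgroup H} (hM : MaxFin M) (hM1 : M ≠ ⊥) (B : Finset H) :
    ∃ I : Finset H, (∀ z ∈ I, z ≠ 1 ∧ ∃ g ∈ B, z ∈ cj g M ∧ ∃ m ∈ M, z = g * m * g⁻¹) ∧
      B.card ≤ 2 * I.card := by
  classical
  have hMf : (M : Set H).Finite := by
    have := hM.1
    exact Set.toFinite _
  set F : Finset H := hMf.toFinset.erase 1 with hF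
  have hFm : ∀ m, m ∈ F ↔ m ∈ M ∧ m ≠ 1 := by
    intro m
    rw [hF, Finset.mem_erase, Set.Finite.mem_toFinset, SetLike.mem_coe]
    exact and_comm
  have hcard : F.card + 1 = hMf.toFinset.card := by
    rw [hF, Finset.card_erase_add_one]
    rw [Set.Finite.mem_toFinset]
    exact one_mem M
  have hF1 : 1 ≤ F.card := by
    obtain ⟨x, hx, hx1⟩ := (M.bot_or_exists_ne_one).resolve_left hM1
    exact Finset.card_pos.2 ⟨x, (hFm x).2 ⟨hx, hx1⟩⟩
  set f : H × H → H := fun p => p.1 * p.2 * p.1⁻¹ with hf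
  refine ⟨(B ×ˢ F).image f, ?_, ?_⟩
  · intro z hz
    obtain ⟨⟨g, m⟩, hgm, rfl⟩ := Finset.mem_image.1 hz
    obtain ⟨hg, hm⟩ := Finset.mem_product.1 hgm
    have hm' := (hFm m).1 hm
    have e : g⁻¹ * (g * m * g⁻¹) * g = m := by group
    refine ⟨?_, g, hg, ?_, m, hm'.1, rfl⟩
    · intro h
      apply hm'.2
      rw [← e]
      simp only [hf] at h
      rw [h]
      group
    · rw [mem_cj]
      simp only [hf]
      rw [e]
      exact hm'.1
  · have key : (B ×ˢ F).card ≤ (hMf.toFinset.card) * ((B ×ˢ F).image f).card := by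
      refine Finset.card_le_mul_card_image _ _ ?_
      intro z hz
      obtain ⟨⟨g₀, m₀⟩, hgm₀, rfl⟩ := Finset.mem_image.1 hz
      obtain ⟨-, hm₀⟩ := Finset.mem_product.1 hgm₀
      have hm₀' := (hFm m₀).1 hm₀
      refine Finset.card_le_card_of_injOn (fun p => g₀⁻¹ * p.1) ?_ ?_
      · rintro ⟨g, m⟩ hp
        have hp' := Finset.mem_filter.1 (Finset.mem_coe.1 hp)
        obtain ⟨-, hm⟩ := Finset.mem_product.1 hp'.1
        have hm' := (hFm m).1 hm
        have heq : g * m * g⁻¹ = g₀ * m₀ * g₀⁻¹ := hp'.2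
        rw [Finset.mem_coe, Set.Finite.mem_toFinset, SetLike.mem_coe]
        refine malnormal hFF hc hnil hM hm₀'.1 hm₀'.2 ?_
        have e : (g₀⁻¹ * g)⁻¹ * m₀ * (g₀⁻¹ * g) = m := by
          calc (g₀⁻¹ * g)⁻¹ * m₀ * (g₀⁻¹ * g) = g⁻¹ * (g₀ * m₀ * g₀⁻¹) * g := by group
            _ = g⁻¹ * (g * m * g⁻¹) * g := by rw [heq]
            _ = m := by group
        rw [e]
        exact hm'.1
      · rintro ⟨g, m⟩ hp ⟨g', m'⟩ hp' h
        have h1 := (Finset.mem_filter.1 (Finset.mem_coe.1 hp)).2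
        have h2 := (Finset.mem_filter.1 (Finset.mem_coe.1 hp')).2
        have h3 : g = g' := mul_left_cancel h
        subst h3
        have h4 : g * m * g⁻¹ = g * m' * g⁻¹ := h1.trans h2.symm
        have h5 : m = m' := mul_left_cancel (mul_right_cancel h4)
        rw [h5]
    rw [Finset.card_product, ← hcard] at key
    set I := ((B ×ˢ F).image f).card with hI
    have h1 : (F.card + 1) * I ≤ F.card * (2 * I) := by nlinarith
    exact Nat.le_of_mul_le_mul_left (by
      calc F.card * B.card = B.card * F.card := Nat.mul_comm _ _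
        _ ≤ (F.card + 1) * I := key
        _ ≤ F.card * (2 * I) := h1) hF1

end Classes

section Growth

variable {H : Type*} [Group H] [DecidableEq H]

theorem pow_mono {S : Finset H} (h1 : (1 : H) ∈ S) {m n : ℕ} (h : m ≤ n) : S ^ m ⊆ S ^ n :=
  Finset.pow_subset_pow_right h1 h

/-- finite sets are contained in large balls -/
theorem exists_subset_pow {S : Finset H} (h1 : (1 : H) ∈ S) (hinv : S⁻¹ = S)
    (hgen : closure (S : Set H) = ⊤) {T : Set H} (hT : T.Finite) :
    ∃ c : ℕ, ∀ t ∈ T, t ∈ S ^ c := by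
  have hU : ∀ t : H, ∃ c : ℕ, t ∈ S ^ c := by
    intro t
    have ht : t ∈ closure (S : Set H) := hgen ▸ Subgroup.mem_top t
    refine Subgroup.closure_induction (p := fun x _ => ∃ c : ℕ, x ∈ S ^ c) ?_ ?_ ?_ ?_ ht
    · intro x hx
      exact ⟨1, by rw [pow_one]; exact hx⟩
    · exact ⟨0, by rw [pow_zero]; exact Finset.mem_one.2 rfl⟩
    · rintro x y - - ⟨a, ha⟩ ⟨b, hb⟩
      exact ⟨a + b, by rw [pow_add]; exact Finset.mul_mem_mul ha hb⟩
    · rintro x - ⟨a, ha⟩
      refine ⟨a, ?_⟩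
      have : x⁻¹ ∈ (S ^ a)⁻¹ := Finset.inv_mem_inv ha
      rwa [← inv_pow, hinv] at this
  choose c hc using hU
  obtain ⟨n, hn⟩ := (hT.image c).bddAbove
  exact ⟨n, fun t ht => pow_mono h1 (hn ⟨t, ht, rfl⟩) (hc t)⟩

/-- the growth inequality -/
theorem growth_ineq [Infinite H] [Group.FG H] (hFF : FF H) (htor : ∀ g : H, IsOfFinOrder g)
    (hRF : ∀ g : H, g ≠ 1 → ∃ N : Subgroup H, N.Normal ∧ N.index ≠ 0 ∧ g ∉ N)
    (hc : ∀ x : H, x ≠ 1 → Finite (centralizer ({x} : Set H)))
    (hnil : ∀ F : Subgroup H, Finite F → Group.IsNilpotent F)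
    {S : Finset H} (h1 : (1 : H) ∈ S) (hinv : S⁻¹ = S) (hgen : closure (S : Set H) = ⊤) (k : ℕ) :
    ∃ c : ℕ, ∀ n : ℕ, k * (S ^ n).card ≤ 2 * (S ^ (2 * n + c)).card := by
  obtain ⟨M, hM1, hM2⟩ := exists_classes hFF htor hRF k
  have hfin : (⋃ i ∈ Finset.range k, (M i : Set H)).Finite := by
    refine Set.Finite.biUnion (Finset.finite_toSet _) ?_
    intro i hi
    have := (hM1 i (Finset.mem_range.1 hi)).1.1
    exact Set.toFinite _
  obtain ⟨c, hc'⟩ := exists_subset_pow h1 hinv hgen hfin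
  refine ⟨c, fun n => ?_⟩
  have hI : ∀ i : ℕ, ∃ I : Finset H, i < k → (∀ z ∈ I, z ≠ 1 ∧ ∃ g ∈ S ^ n, z ∈ cj g (M i) ∧
      ∃ m ∈ M i, z = g * m * g⁻¹) ∧ (S ^ n).card ≤ 2 * I.card := by
    intro i
    by_cases hi : i < k
    · obtain ⟨I, h⟩ := count_conj hFF hc hnil (hM1 i hi).1 (hM1 i hi).2 (S ^ n)
      exact ⟨I, fun _ => h⟩
    · exact ⟨∅, fun h => absurd h hi⟩
  choose I hI using hI
  have hsub : (Finset.range k).biUnion I ⊆ S ^ (2 * n + c) := by
    intro z hz
    obtain ⟨i, hi, hzi⟩ := Finset.mem_biUnion.1 hz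
    have hi' := Finset.mem_range.1 hi
    obtain ⟨-, g, hg, -, m, hm, rfl⟩ := (hI i hi').1 z hzi
    have hm' : m ∈ S ^ c := hc' m (Set.mem_iUnion₂.2 ⟨i, hi, hm⟩)
    have hg' : g⁻¹ ∈ S ^ n := by
      have : g⁻¹ ∈ (S ^ n)⁻¹ := Finset.inv_mem_inv hg
      rwa [← inv_pow, hinv] at this
    have e : 2 * n + c = n + c + n := by ring
    rw [e, pow_add, pow_add]
    exact Finset.mul_mem_mul (Finset.mul_mem_mul hg hm') hg'
  have hdis : (Finset.range k : Set ℕ).PairwiseDisjoint I := by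
    intro i hi j hj hij
    rw [Function.onFun, Finset.disjoint_left]
    intro z hzi hzj
    have hi' : i < k := by simpa using hi
    have hj' : j < k := by simpa using hj
    obtain ⟨hz1, g, -, hg, -⟩ := (hI i hi').1 z hzi
    obtain ⟨-, g', -, hg', -⟩ := (hI j hj').1 z hzj
    have heq : cj g (M i) = cj g' (M j) := by
      by_contra hne
      have h2 := maxFin_inf hFF hc hnil (maxFin_cj (hM1 i hi').1 g)
        (maxFin_cj (hM1 j hj').1 g') hne
      have h3 : z ∈ cj g (M i) ⊓ cj g' (M j) := Subgroup.mem_inf.2 ⟨hg, hg'⟩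
      rw [h2, Subgroup.mem_bot] at h3
      exact hz1 h3
    have hcomp : ∀ (a b : H) (K L : Subgroup H), cj a K = cj b L → L = cj (b⁻¹ * a) K := by
      intro a b K L h
      ext z
      have h5 : b * z * b⁻¹ ∈ cj b L ↔ b * z * b⁻¹ ∈ cj a K := by rw [h]
      rw [mem_cj, mem_cj] at h5
      rw [mem_cj]
      have e1 : b⁻¹ * (b * z * b⁻¹) * b = z := by group
      have e2 : a⁻¹ * (b * z * b⁻¹) * a = (b⁻¹ * a)⁻¹ * z * (b⁻¹ * a) := by group
      rw [e1, e2] at h5
      exact h5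
    rcases lt_or_gt_of_ne hij with h | h
    · exact hM2 j hj' i h _ (hcomp g g' _ _ heq)
    · exact hM2 i hi' j h _ (hcomp g' g _ _ heq.symm)
  have hsum : k * (S ^ n).card ≤ ∑ i ∈ Finset.range k, 2 * (I i).card := by
    calc k * (S ^ n).card = ∑ _i ∈ Finset.range k, (S ^ n).card := by simp
      _ ≤ _ := Finset.sum_le_sum (fun i hi => (hI i (Finset.mem_range.1 hi)).2)
  calc k * (S ^ n).card ≤ ∑ i ∈ Finset.range k, 2 * (I i).card := hsum
    _ = 2 * ((Finset.range k).biUnion I).card := by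
        rw [Finset.card_biUnion hdis, Finset.mul_sum]
    _ ≤ 2 * (S ^ (2 * n + c)).card := Nat.mul_le_mul_left _ (Finset.card_le_card hsub)

end Growth

/-- a function with the growth inequality is not polynomially bounded along a sequence -/
theorem not_poly (f : ℕ → ℕ) (hmono : Monotone f) (h0 : 1 ≤ f 0)
    (hgr : ∀ k : ℕ, ∃ c : ℕ, ∀ n : ℕ, k * f n ≤ 2 * f (2 * n + c)) (C d : ℕ)
    (hfr : ∃ᶠ n in atTop, f n ≤ C * n ^ d) : False := by
  obtain ⟨c₀, hc₀⟩ := hgr (2 ^ (d + 2))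
  set c : ℕ := c₀ + 1 with hc
  have hstep : ∀ n, 2 ^ (d + 1) * f n ≤ f (2 * n + c) := by
    intro n
    have h1 := hc₀ n
    have h2 : f (2 * n + c₀) ≤ f (2 * n + c) := hmono (by omega)
    have h3 : 2 ^ (d + 2) * f n = 2 * (2 ^ (d + 1) * f n) := by ring
    rw [h3] at h1
    omega
  have hpow : ∀ j : ℕ, 2 ^ ((d + 1) * j) ≤ f ((2 ^ j - 1) * c) := by
    intro j
    induction j with
    | zero => simpa using h0
    | succ j ih =>
      have e : (2 ^ (j + 1) - 1) * c = 2 * ((2 ^ j - 1) * c) + c := by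
        have h2 : 1 ≤ 2 ^ j := Nat.one_le_two_pow
        obtain ⟨a, ha⟩ := Nat.exists_eq_add_of_le h2
        have h3 : 2 ^ (j + 1) - 1 = 2 * a + 1 := by
          rw [pow_succ, ha]
          omega
        have h4 : 2 ^ j - 1 = a := by omega
        rw [h3, h4]
        ring
      rw [e]
      calc 2 ^ ((d + 1) * (j + 1)) = 2 ^ (d + 1) * 2 ^ ((d + 1) * j) := by
            rw [← pow_add]
            congr 1
            ring
        _ ≤ 2 ^ (d + 1) * f ((2 ^ j - 1) * c) := Nat.mul_le_mul_left _ ih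
        _ ≤ _ := hstep _
  obtain ⟨n, hn, hnf⟩ := (Filter.frequently_atTop.1 hfr) (2 * c * (C * (2 * c) ^ d) + 1)
  -- the largest `j` with `(2^j - 1) c ≤ n`
  obtain ⟨j, hj1, hj2⟩ : ∃ j : ℕ, (2 ^ j - 1) * c ≤ n ∧ n < (2 ^ (j + 1) - 1) * c := by
    have hex : ∃ j : ℕ, n < (2 ^ (j + 1) - 1) * c := by
      refine ⟨n, ?_⟩
      have h1 : n < 2 ^ n := Nat.lt_two_pow_self
      have h2 : 2 ^ n ≤ 2 ^ (n + 1) - 1 := by
        rw [pow_succ]
        omega
      calc n < 2 ^ (n + 1) - 1 := by omega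
        _ ≤ (2 ^ (n + 1) - 1) * c := Nat.le_mul_of_pos_right _ (by omega)
    classical
    refine ⟨Nat.find hex, ?_, Nat.find_spec hex⟩
    by_contra hcon
    push Not at hcon
    rcases Nat.eq_zero_or_pos (Nat.find hex) with h | h
    · rw [h] at hcon
      simp at hcon
    · have h1 := Nat.find_min hex (m := Nat.find hex - 1) (by omega)
      rw [Nat.sub_add_cancel h] at h1
      exact h1 hcon
  have h1 : 2 ^ ((d + 1) * j) ≤ C * n ^ d := (hpow j).trans ((hmono hj1).trans hnf)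
  have h2 : n < 2 ^ j * (2 * c) := by
    calc n < (2 ^ (j + 1) - 1) * c := hj2
      _ ≤ 2 ^ (j + 1) * c := Nat.mul_le_mul_right _ (Nat.sub_le _ _)
      _ = 2 ^ j * (2 * c) := by ring
  have h3 : 2 ^ j * 2 ^ (j * d) ≤ (C * (2 * c) ^ d) * 2 ^ (j * d) := by
    calc 2 ^ j * 2 ^ (j * d) = 2 ^ ((d + 1) * j) := by
          rw [← pow_add]
          congr 1
          ring
      _ ≤ C * n ^ d := h1
      _ ≤ C * (2 ^ j * (2 * c)) ^ d := Nat.mul_le_mul_left _ (Nat.pow_le_pow_left h2.le d)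
      _ = (C * (2 * c) ^ d) * 2 ^ (j * d) := by
          rw [mul_pow, ← pow_mul]
          ring
  have h4 : 2 ^ j ≤ C * (2 * c) ^ d := Nat.le_of_mul_le_mul_right h3 (by positivity)
  have h5 : n < 2 * c * (C * (2 * c) ^ d) := by
    calc n < 2 ^ j * (2 * c) := h2
      _ ≤ (C * (2 * c) ^ d) * (2 * c) := Nat.mul_le_mul_right _ h4
      _ = _ := by ring
  omega

end Pool.Agent.Helper76.WM
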