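import Pool.Agent.Helper76.WM.Max

/-!
# MP_b731ff_al: the orbit lemma

If all subgroups of the infinite finitely generated group `H` are finite or of finite index and
`H` acts faithfully on `X`, then some orbits of a finite subset `B` of `H` are of size
at least `|B| / K`.
-/

set_option autoImplicit false

namespace Pool.Agent.Helper76.WM

open Subgroup (closure)
open Filter

variable {H X : Type*} [Group H] [MulAction H X]

/-- the sets whose pointwise stabilizer is of finite index are small -/
def smallFilter (H X : Type*) [Group H] [MulAction H X] : Filter X :=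
  Filter.comk (fun A : Set X => (fixingSubgroup H A).index ≠ 0)
    (by
      have h : fixingSubgroup H (∅ : Set X) = ⊤ := by
        rw [eq_top_iff]
        intro g _
        rw [mem_fixingSubgroup_iff]
        intro y hy
        exact absurd hy (Set.notMem_empty y)
      rw [h, Subgroup.index_top]
      exact one_ne_zero)
    (by
      intro t ht s hs h0
      have h1 : fixingSubgroup H t ≤ fixingSubgroup H s := fixingSubgroup_antitone H X hs
      exact ht (Nat.eq_zero_of_zero_dvd (h0 ▸ Subgroup.index_dvd_of_le h1)))
    (by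
      intro s hs t ht
      rw [fixingSubgroup_union]
      exact Subgroup.index_inf_ne_zero hs ht)

theorem smallFilter_neBot [Infinite H] (hfaith : ∀ g : H, (∀ x : X, g • x = x) → g = 1) :
    (smallFilter H X).NeBot := by
  rw [Filter.neBot_iff]
  intro h
  have h1 : (∅ : Set X) ∈ smallFilter H X := by
    rw [h]
    exact Filter.mem_bot
  have h2 : (fixingSubgroup H ((∅ : Set X)ᶜ)).index ≠ 0 := Filter.mem_comk.1 h1
  apply h2
  have h3 : fixingSubgroup H ((∅ : Set X)ᶜ) = ⊥ := by
    rw [eq_bot_iff]
    intro g hg
    rw [Subgroup.mem_bot]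
    apply hfaith
    intro x
    exact (mem_fixingSubgroup_iff H).1 hg x (by simp)
  rw [h3, Subgroup.index_bot, Nat.card_eq_zero]
  exact Or.inr inferInstance

/-- the elements which fix almost all points -/
def germ (H X : Type*) [Group H] [MulAction H X] (U : Filter X) : Subgroup H where
  carrier := {h | ∀ᶠ x in U, h • x = x}
  mul_mem' := by
    intro a b ha hb
    have ha' : ∀ᶠ x in U, a • x = x := ha
    have hb' : ∀ᶠ x in U, b • x = x := hb
    filter_upwards [ha', hb'] with x h1 h2
    rw [mul_smul, h2, h1]
  one_mem' := by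
    exact Filter.Eventually.of_forall (fun x => one_smul H x)
  inv_mem' := by
    intro a ha
    have ha' : ∀ᶠ x in U, a • x = x := ha
    filter_upwards [ha'] with x h1
    rw [inv_smul_eq_iff, h1]

theorem mem_germ {U : Filter X} {h : H} : h ∈ germ H X U ↔ ∀ᶠ x in U, h • x = x := Iff.rfl

/-- the germ stabilizer is finite -/
theorem finite_germ [Group.FG H] (hFF : FF H) (U : Ultrafilter X)
    (hU : (U : Filter X) ≤ smallFilter H X) : Finite (germ H X (U : Filter X)) := by
  rcases hFF (germ H X (U : Filter X)) with h | h
  · exact h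
  · exfalso
    have : (germ H X (U : Filter X)).FiniteIndex := ⟨h⟩
    obtain ⟨T, hT⟩ := (Group.fg_iff_subgroup_fg _).1
      (Subgroup.fg_of_index_ne_zero (germ H X (U : Filter X)))
    have hev : ∀ᶠ x in (U : Filter X), ∀ t ∈ T, t • x = x := by
      rw [Filter.eventually_all_finset]
      intro t ht
      have : t ∈ germ H X (U : Filter X) := hT ▸ Subgroup.subset_closure ht
      exact this
    set A : Set X := {x | ∀ t ∈ T, t • x = x} with hA
    have hAU : A ∈ (U : Filter X) := hev
    have hle : germ H X (U : Filter X) ≤ fixingSubgroup H A := by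
      rw [← hT, Subgroup.closure_le]
      intro t ht
      rw [SetLike.mem_coe, mem_fixingSubgroup_iff]
      intro y hy
      exact hy t ht
    have hp : (fixingSubgroup H A).index ≠ 0 := fun h0 =>
      h (Nat.eq_zero_of_zero_dvd (h0 ▸ Subgroup.index_dvd_of_le hle))
    have hAc : Aᶜ ∈ (U : Filter X) := by
      refine hU ?_
      rw [smallFilter, Filter.mem_comk, compl_compl]
      exact hp
    have hem : (∅ : Set X) ∈ (U : Filter X) := by
      have := Filter.inter_mem hAU hAc
      rwa [Set.inter_compl_self] at this
    exact U.neBot.ne (Filter.empty_mem_iff_bot.1 hem)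

/-- **the orbit lemma** -/
theorem orbit_lemma [Infinite H] [Group.FG H] [DecidableEq H] [DecidableEq X] (hFF : FF H)
    (hfaith : ∀ g : H, (∀ x : X, g • x = x) → g = 1) :
    ∃ K : ℕ, ∀ B : Finset H, ∃ x : X, B.card ≤ K * (B.image (fun g => g • x)).card := by
  have hne := smallFilter_neBot hfaith
  set U : Ultrafilter X := Ultrafilter.of (smallFilter H X) with hU
  have hle : (U : Filter X) ≤ smallFilter H X := Ultrafilter.of_le _
  set L := germ H X (U : Filter X) with hL
  have hLf : Finite L := finite_germ hFF U hle
  have hLs : (L : Set H).Finite := Set.toFinite _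
  refine ⟨hLs.toFinset.card, fun B => ?_⟩
  have hev : ∀ᶠ x in (U : Filter X), ∀ g ∈ B, ∀ h ∈ B, g • x = h • x → g⁻¹ * h ∈ L := by
    rw [Filter.eventually_all_finset]
    intro g _
    rw [Filter.eventually_all_finset]
    intro h _
    by_cases hgh : g⁻¹ * h ∈ L
    · exact Filter.Eventually.of_forall (fun x _ => hgh)
    · have h1 : ∀ᶠ x in (U : Filter X), ¬ ((g⁻¹ * h) • x = x) :=
        Ultrafilter.eventually_not.2 (fun h2 => hgh h2)
      filter_upwards [h1] with x hx hxx
      exfalso
      apply hx
      rw [mul_smul, ← hxx, inv_smul_smul]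
  obtain ⟨x, hx⟩ := hev.exists
  refine ⟨x, ?_⟩
  refine Finset.card_le_mul_card_image B _ ?_
  intro z hz
  obtain ⟨g₀, hg₀, rfl⟩ := Finset.mem_image.1 hz
  refine Finset.card_le_card_of_injOn (fun h => g₀⁻¹ * h) ?_ ?_
  · intro h hh
    have hh' := Finset.mem_filter.1 (Finset.mem_coe.1 hh)
    rw [Finset.mem_coe, Set.Finite.mem_toFinset, SetLike.mem_coe]
    exact hx g₀ hg₀ h hh'.1 hh'.2.symm
  · intro a _ b _ hab
    exact mul_left_cancel hab

end Pool.Agent.Helper76.WM
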