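import Pool.Agent.Helper76.WM.Growth
import Pool.Agent.Helper76.WM.Orbit
import Pool.Agent.Helper76.WM.Pairs

/-!
# MP_b731ff_al: periodic residually finite groups with the weak minimum condition and
polynomial orbital growth
-/

set_option autoImplicit false

namespace Pool.Agent.Helper76.WM

open Subgroup (closure centralizer)
open Filter
open scoped Pointwise

/-- uniformly polynomial orbital growth (along a sequence) -/
def PolyOrb (G X : Type*) [Group G] [MulAction G X] : Prop :=
  ∀ S : Set G, S.Finite → ∃ C d : ℕ, ∃ᶠ n : ℕ in atTop,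
    ∀ x : X, ((fun g : G => g • x) '' (S ^ n)).ncard ≤ C * n ^ d

/-- the group version -/
theorem false_of_polyOrb {H X : Type*} [Group H] [MulAction H X] [Infinite H] [Group.FG H]
    (hFF : FF H) (htor : ∀ g : H, IsOfFinOrder g)
    (hRF : ∀ g : H, g ≠ 1 → ∃ N : Subgroup H, N.Normal ∧ N.index ≠ 0 ∧ g ∉ N)
    (hc : ∀ x : H, x ≠ 1 → Finite (centralizer ({x} : Set H)))
    (hnil : ∀ F : Subgroup H, Finite F → Group.IsNilpotent F)
    (hfaith : ∀ g : H, (∀ x : X, g • x = x) → g = 1) (horb : PolyOrb H X) : False := by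
  classical
  obtain ⟨T, hT⟩ := (Group.fg_def (G := H)).1 inferInstance
  set S : Finset H := insert 1 (T ∪ T⁻¹) with hS
  have h1 : (1 : H) ∈ S := Finset.mem_insert_self _ _
  have hinv : S⁻¹ = S := by
    ext z
    rw [Finset.mem_inv', hS]
    simp only [Finset.mem_insert, Finset.mem_union, Finset.mem_inv', inv_inv, inv_eq_one]
    tauto
  have hgen : closure (S : Set H) = ⊤ := by
    rw [eq_top_iff, ← hT]
    refine Subgroup.closure_mono ?_
    intro t ht
    rw [hS, Finset.coe_insert, Finset.coe_union]
    exact Set.mem_insert_of_mem _ (Or.inl ht)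
  obtain ⟨K, hK⟩ := orbit_lemma (X := X) hFF hfaith
  obtain ⟨C, d, hfr⟩ := horb (S : Set H) S.finite_toSet
  refine not_poly (fun n => (S ^ n).card) ?_ ?_ ?_ (K * C) d ?_
  · intro m n hmn
    exact Finset.card_le_card (pow_mono h1 hmn)
  · simp
  · intro k
    exact growth_ineq hFF htor hRF hc hnil h1 hinv hgen k
  · refine hfr.mono ?_
    intro n hn
    obtain ⟨x, hx⟩ := hK (S ^ n)
    have h2 := hn x
    have h3 : ((fun g : H => g • x) '' ((S : Set H) ^ n)).ncard
        = ((S ^ n).image (fun g => g • x)).card := by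
      rw [← Set.ncard_coe_finset, Finset.coe_image, Finset.coe_pow]
    rw [h3] at h2
    calc (S ^ n).card ≤ K * ((S ^ n).image (fun g => g • x)).card := hx
      _ ≤ K * (C * n ^ d) := Nat.mul_le_mul_left _ h2
      _ = K * C * n ^ d := by ring

/-- the main theorem -/
theorem finite_of_polyOrb (G X : Type*) [Group G] [MulAction G X] (htor : ∀ g : G, IsOfFinOrder g)
    (hRF : ∀ g : G, g ≠ 1 → ∃ N : Subgroup G, N.Normal ∧ N.index ≠ 0 ∧ g ∉ N)
    (hmin : ∀ H : ℕ → Subgroup G, Antitone H →
        ∃ n : ℕ, ∀ m : ℕ, n ≤ m → ((H (m + 1)).subgroupOf (H m)).index ≠ 0)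
    (hnil : ∀ F : Subgroup G, Finite F → Odd (Nat.card F) → Group.IsNilpotent F)
    (hfaith : ∀ g : G, (∀ x : X, g • x = x) → g = 1) (horb : PolyOrb G X) : Finite G := by
  classical
  by_contra hcon
  rw [not_finite_iff_infinite] at hcon
  obtain ⟨p, x, g, H, -, -, -, hH, hHinf, hHFF, hHodd, hHc, -⟩ :=
    conj_pairs G hcon htor hRF hmin
  have hfg : Group.FG H := by
    rw [Group.fg_iff_subgroup_fg, hH]
    exact ⟨{x, g⁻¹ * x * g}, by simp⟩
  have htor' : ∀ g : H, IsOfFinOrder g := fun g =>
    (Subgroup.subtype_injective H).isOfFinOrder_iff.1 (htor g)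
  have hRF' : ∀ g : H, g ≠ 1 → ∃ N : Subgroup H, N.Normal ∧ N.index ≠ 0 ∧ g ∉ N := by
    intro g hg
    obtain ⟨N, hN, hNi, hgN⟩ := hRF g (fun h => hg (Subtype.ext h))
    have hfi : N.FiniteIndex := ⟨hNi⟩
    exact ⟨N.subgroupOf H, inferInstance, Subgroup.FiniteIndex.index_ne_zero, hgN⟩
  have hFF : FF H := by
    intro K
    have h1 := hHFF (K.map H.subtype) (Subgroup.map_subtype_le K)
    rcases h1 with h1 | h1
    · left
      exact Finite.of_injective _
        (K.equivMapOfInjective H.subtype H.subtype_injective).injective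
    · right
      have h3 : (K.map H.subtype).subgroupOf H = K :=
        Subgroup.comap_map_eq_self_of_injective H.subtype_injective K
      rw [Subgroup.relIndex, h3] at h1
      exact h1
  have hc : ∀ x : H, x ≠ 1 → Finite (centralizer ({x} : Set H)) := by
    intro x hx
    have hf := hHc x x.2 (fun h => hx (Subtype.ext h))
    let f : centralizer ({x} : Set H) → (centralizer ({(x : G)} : Set G) ⊓ H : Subgroup G) :=
      fun y => ⟨(y : H), Subgroup.mem_inf.2 ⟨by
        rw [Subgroup.mem_centralizer_iff]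
        intro z hz
        rw [Set.mem_singleton_iff.1 hz]
        exact congrArg Subtype.val (Subgroup.mem_centralizer_iff.1 y.2 x rfl), (y : H).2⟩⟩
    exact Finite.of_injective f (fun a b hab => by
      have h1 := congrArg Subtype.val hab
      exact Subtype.ext (Subtype.ext h1))
  have hnil' : ∀ F : Subgroup H, Finite F → Group.IsNilpotent F := by
    intro F hF
    have e := F.equivMapOfInjective H.subtype H.subtype_injective
    have hF' : Finite (F.map H.subtype) := Finite.of_equiv _ e.toEquiv
    have hodd : Odd (Nat.card (F.map H.subtype)) := by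
      rw [← Nat.not_even_iff_odd, even_iff_two_dvd]
      intro h2
      obtain ⟨z, hz⟩ := exists_prime_orderOf_dvd_card' 2 h2
      have hzH : (z : G) ∈ H := Subgroup.map_subtype_le F z.2
      have h3 := hHodd z hzH
      rw [Subgroup.orderOf_coe, hz] at h3
      exact absurd h3 (by decide)
    have := hnil _ hF' hodd
    exact (Group.isNilpotent_congr e).2 this
  refine false_of_polyOrb (X := X) hFF htor' hRF' hc hnil' ?_ ?_
  · intro g hg
    exact Subtype.ext (hfaith g (fun x => hg x))
  · intro S hS
    obtain ⟨C, d, hfr⟩ := horb (H.subtype '' S) (hS.image _)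
    refine ⟨C, d, hfr.mono (fun n hn x => ?_)⟩
    have h1 := hn x
    have h2 : ((fun g : H => g • x) '' (S ^ n)) = ((fun g : G => g • x) '' ((H.subtype '' S) ^ n)) := by
      rw [← Set.image_pow, Set.image_image]
      rfl
    rw [h2]
    exact h1

end Pool.Agent.Helper76.WM
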