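import Mathlib

/-!
# MP_b731ff_al: maximal finite subgroups in groups all of whose subgroups are finite or of finite
index
-/

set_option autoImplicit false

namespace Pool.Agent.Helper76.WM

open Subgroup (closure centralizer normalizer)
open scoped Pointwise

variable {H : Type*} [Group H]

/-- all subgroups are finite or of finite index -/
def FF (H : Type*) [Group H] : Prop := ∀ K : Subgroup H, Finite K ∨ K.index ≠ 0

/-- ascending chains of subgroups stop -/
theorem chain_stops [Group.FG H] (hFF : FF H) (f : ℕ →o Subgroup H) :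
    ∃ n, ∀ m, n ≤ m → f n = f m := by
  set U : Subgroup H := ⨆ n, f n with hU
  have hdir : Directed (· ≤ ·) f := f.monotone.directed_le
  -- `U` is finitely generated
  have hfg : ∃ T : Set H, T.Finite ∧ closure T = U := by
    rcases hFF U with h | h
    · exact ⟨(U : Set H), Set.toFinite _, Subgroup.closure_eq U⟩
    · have : U.FiniteIndex := ⟨h⟩
      obtain ⟨T, hT⟩ := (Group.fg_iff_subgroup_fg U).1 (Subgroup.fg_of_index_ne_zero U)
      exact ⟨T, T.finite_toSet, hT⟩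
  obtain ⟨T, hTf, hT⟩ := hfg
  have hsub : ∀ t ∈ T, ∃ n, t ∈ f n := by
    intro t ht
    have : t ∈ U := hT ▸ Subgroup.subset_closure ht
    exact (Subgroup.mem_iSup_of_directed hdir).1 this
  obtain ⟨n, hn⟩ : ∃ n, ∀ t ∈ T, t ∈ f n := by
    choose! k hk using hsub
    obtain ⟨n, hn⟩ := (hTf.image k).bddAbove
    exact ⟨n, fun t ht => f.monotone (hn ⟨t, ht, rfl⟩) (hk t ht)⟩
  refine ⟨n, fun m hm => le_antisymm (f.monotone hm) ?_⟩
  calc f m ≤ U := le_iSup f m
    _ = closure T := hT.symm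
    _ ≤ f n := (Subgroup.closure_le _).2 hn

/-- every nonempty set of subgroups has a maximal element -/
theorem exists_max [Group.FG H] (hFF : FF H) (P : Subgroup H → Prop) (hne : ∃ K, P K) :
    ∃ K, P K ∧ ∀ K', P K' → K ≤ K' → K' = K := by
  have hwf : WellFoundedGT (Subgroup H) := by
    rw [wellFoundedGT_iff_monotone_chain_condition]
    intro a
    exact chain_stops hFF a
  obtain ⟨K, hK, hmax⟩ := hwf.wf.has_min {K : Subgroup H | P K} hne
  refine ⟨K, hK, fun K' hK' hle => ?_⟩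
  by_contra hcon
  exact hmax K' hK' (lt_of_le_of_ne hle (fun h => hcon h.symm))

/-- maximal finite subgroup -/
def MaxFin (M : Subgroup H) : Prop := Finite M ∧ ∀ K : Subgroup H, Finite K → M ≤ K → K = M

theorem exists_maxFin [Group.FG H] (hFF : FF H) (F : Subgroup H) (hF : Finite F) :
    ∃ M : Subgroup H, MaxFin M ∧ F ≤ M := by
  obtain ⟨M, ⟨hM1, hM2⟩, hmax⟩ := exists_max hFF (fun K => Finite K ∧ F ≤ K) ⟨F, hF, le_rfl⟩
  exact ⟨M, ⟨hM1, fun K hK hMK => hmax K ⟨hK, hM2.trans hMK⟩ hMK⟩, hM2⟩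

/-- the elements which conjugate `x` to `d` form a finite set -/
theorem finite_transporter (hc : ∀ x : H, x ≠ 1 → Finite (centralizer ({x} : Set H)))
    (x d : H) (hx : x ≠ 1) : {n : H | n * x * n⁻¹ = d}.Finite := by
  rcases Set.eq_empty_or_nonempty {n : H | n * x * n⁻¹ = d} with h | ⟨n₀, hn₀⟩
  · rw [h]
    exact Set.finite_empty
  · have hf : (centralizer ({x} : Set H) : Set H).Finite := by
      have := hc x hx
      exact Set.toFinite _
    refine (hf.image (fun c => n₀ * c)).subset ?_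
    intro n hn
    refine ⟨n₀⁻¹ * n, ?_, by simp⟩
    rw [SetLike.mem_coe, Subgroup.mem_centralizer_iff]
    intro y hy
    rw [Set.mem_singleton_iff.1 hy]
    have h1 : n * x * n⁻¹ = n₀ * x * n₀⁻¹ := by
      have a1 : n * x * n⁻¹ = d := hn
      have a2 : n₀ * x * n₀⁻¹ = d := hn₀
      rw [a1, a2]
    calc x * (n₀⁻¹ * n) = n₀⁻¹ * (n₀ * x * n₀⁻¹) * n := by group
      _ = n₀⁻¹ * (n * x * n⁻¹) * n := by rw [h1]
      _ = n₀⁻¹ * n * x := by group

/-- normalizers of nontrivial finite subgroups are finite -/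
theorem finite_normalizer (hc : ∀ x : H, x ≠ 1 → Finite (centralizer ({x} : Set H)))
    (D : Subgroup H) (hD : Finite D) (hD1 : D ≠ ⊥) : Finite (normalizer (D : Set H)) := by
  obtain ⟨x, hx, hx1⟩ := (D.bot_or_exists_ne_one).resolve_left hD1
  have hDf : (D : Set H).Finite := Set.toFinite _
  have h1 : (⋃ d ∈ (D : Set H), {n : H | n * x * n⁻¹ = d}).Finite :=
    hDf.biUnion (fun d _ => finite_transporter hc x d hx1)
  have h2 : ((normalizer (D : Set H) : Subgroup H) : Set H) ⊆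
      ⋃ d ∈ (D : Set H), {n : H | n * x * n⁻¹ = d} := by
    intro n hn
    rw [Set.mem_iUnion₂]
    exact ⟨n * x * n⁻¹, (Subgroup.mem_normalizer_iff.1 hn x).1 hx, rfl⟩
  exact (h1.subset h2).to_subtype

/-- in a nilpotent subgroup normalizers grow -/
theorem exists_mem_normalizer (M D : Subgroup H) (hM : Group.IsNilpotent M) (hDM : D ≤ M)
    (hne : D ≠ M) : ∃ g ∈ M, g ∉ D ∧ g ∈ normalizer (D : Set H) := by
  have hnc : NormalizerCondition M := Group.normalizerCondition_of_isNilpotent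
  have hlt : D.subgroupOf M < ⊤ := by
    rw [lt_top_iff_ne_top]
    intro h
    exact hne (le_antisymm hDM (Subgroup.subgroupOf_eq_top.1 h))
  obtain ⟨-, hlt'⟩ := SetLike.lt_iff_le_and_exists.1 (hnc _ hlt)
  obtain ⟨g, hg1, hg2⟩ := hlt'
  refine ⟨g, g.2, fun h => hg2 (Subgroup.mem_subgroupOf.2 h), ?_⟩
  rw [Subgroup.mem_normalizer_iff]
  intro h
  constructor
  · intro hh
    have := (Subgroup.mem_normalizer_iff.1 hg1 ⟨h, hDM hh⟩).1 (Subgroup.mem_subgroupOf.2 hh)
    exact Subgroup.mem_subgroupOf.1 this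
  · intro hh
    have hhM : h ∈ M := by
      have h1 : (g : H)⁻¹ * (g * h * (g : H)⁻¹) * g ∈ M :=
        mul_mem (mul_mem (inv_mem g.2) (hDM hh)) g.2
      have e : (g : H)⁻¹ * (g * h * (g : H)⁻¹) * g = h := by group
      rwa [e] at h1
    have := (Subgroup.mem_normalizer_iff.1 hg1 ⟨h, hhM⟩).2 (Subgroup.mem_subgroupOf.2 hh)
    exact Subgroup.mem_subgroupOf.1 this

/-- two different maximal finite subgroups intersect trivially -/
theorem maxFin_inf [Group.FG H] (hFF : FF H)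
    (hc : ∀ x : H, x ≠ 1 → Finite (centralizer ({x} : Set H)))
    (hnil : ∀ F : Subgroup H, Finite F → Group.IsNilpotent F)
    {M₁ M₂ : Subgroup H} (h₁ : MaxFin M₁) (h₂ : MaxFin M₂) (hne : M₁ ≠ M₂) : M₁ ⊓ M₂ = ⊥ := by
  by_contra hcon
  obtain ⟨D, ⟨N₁, N₂, hN₁, hN₂, hN, hD, hD1⟩, hmax⟩ := exists_max hFF
    (fun D => ∃ N₁ N₂ : Subgroup H, MaxFin N₁ ∧ MaxFin N₂ ∧ N₁ ≠ N₂ ∧ N₁ ⊓ N₂ = D ∧ D ≠ ⊥)
    ⟨M₁ ⊓ M₂, M₁, M₂, h₁, h₂, hne, rfl, hcon⟩
  have hDN₁ : D ≤ N₁ := hD ▸ inf_le_left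
  have hDN₂ : D ≤ N₂ := hD ▸ inf_le_right
  have hDf : Finite D := by
    have := hN₁.1
    exact Set.Finite.to_subtype ((Set.toFinite (N₁ : Set H)).subset hDN₁)
  have hne₁ : D ≠ N₁ := by
    intro h
    exact hN (hN₁.2 N₂ hN₂.1 (h ▸ hDN₂)).symm
  have hne₂ : D ≠ N₂ := by
    intro h
    exact hN (hN₂.2 N₁ hN₁.1 (h ▸ hDN₁))
  obtain ⟨M₃, hM₃, hle⟩ := exists_maxFin hFF _ (finite_normalizer hc D hDf hD1)
  have hDM₃ : D ≤ M₃ := Subgroup.le_normalizer.trans hle
  have key : ∀ N : Subgroup H, MaxFin N → D ≤ N → D ≠ N → M₃ = N := by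
    intro N hNm hDN hDN'
    by_contra h3
    obtain ⟨g, hgN, hgD, hgn⟩ := exists_mem_normalizer N D (hnil N hNm.1) hDN hDN'
    have hD' : D ≤ M₃ ⊓ N := le_inf hDM₃ hDN
    have hD'1 : M₃ ⊓ N ≠ ⊥ := fun h => hD1 (le_bot_iff.1 (h ▸ hD'))
    have := hmax (M₃ ⊓ N) ⟨M₃, N, hM₃, hNm, h3, rfl, hD'1⟩ hD'
    exact hgD (this ▸ (Subgroup.mem_inf.2 ⟨hle hgn, hgN⟩))
  exact hN ((key N₁ hN₁ hDN₁ hne₁).symm.trans (key N₂ hN₂ hDN₂ hne₂))

/-- the conjugate subgroup `g M g⁻¹` -/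
def cj (g : H) (M : Subgroup H) : Subgroup H := M.map (MulAut.conj g).toMonoidHom

theorem mem_cj {g z : H} {M : Subgroup H} : z ∈ cj g M ↔ g⁻¹ * z * g ∈ M := by
  unfold cj
  rw [Subgroup.mem_map]
  constructor
  · rintro ⟨m, hm, rfl⟩
    have e : g⁻¹ * ((MulAut.conj g).toMonoidHom m) * g = m := by
      simp [MulAut.conj_apply, mul_assoc]
    rw [e]
    exact hm
  · intro h
    refine ⟨g⁻¹ * z * g, h, ?_⟩
    simp [MulAut.conj_apply, mul_assoc]

theorem maxFin_cj {M : Subgroup H} (hM : MaxFin M) (g : H) : MaxFin (cj g M) := by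
  have hfin : ∀ (K : Subgroup H) (a : H), Finite K → Finite (cj a K) := by
    intro K a hK
    have : (cj a K : Set H) = (MulAut.conj a) '' (K : Set H) := rfl
    have hf : (cj a K : Set H).Finite := by
      rw [this]
      exact (Set.toFinite (K : Set H)).image _
    exact hf.to_subtype
  refine ⟨hfin M g hM.1, ?_⟩
  intro K hK hle
  have h1 : M ≤ cj g⁻¹ K := by
    intro m hm
    rw [mem_cj]
    refine hle ?_
    rw [mem_cj]
    have e : g⁻¹ * (g⁻¹⁻¹ * m * g⁻¹) * g = m := by group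
    rw [e]
    exact hm
  have h2 := hM.2 _ (hfin K g⁻¹ hK) h1
  refine le_antisymm ?_ hle
  intro z hz
  rw [mem_cj, ← h2, mem_cj]
  have e : g⁻¹⁻¹ * (g⁻¹ * z * g) * g⁻¹ = z := by group
  rw [e]
  exact hz

/-- an element which conjugates a nontrivial element of `M` into `M` is in `M` -/
theorem malnormal [Group.FG H] (hFF : FF H)
    (hc : ∀ x : H, x ≠ 1 → Finite (centralizer ({x} : Set H)))
    (hnil : ∀ F : Subgroup H, Finite F → Group.IsNilpotent F)
    {M : Subgroup H} (hM : MaxFin M) {g m : H} (hm : m ∈ M) (hm1 : m ≠ 1)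
    (h : g⁻¹ * m * g ∈ M) : g ∈ M := by
  have h1 : M = cj g M := by
    by_contra hne
    have h2 := maxFin_inf hFF hc hnil hM (maxFin_cj hM g) hne
    have h3 : m ∈ M ⊓ cj g M := Subgroup.mem_inf.2 ⟨hm, mem_cj.2 h⟩
    rw [h2, Subgroup.mem_bot] at h3
    exact hm1 h3
  have hMb : M ≠ ⊥ := fun hb => hm1 (Subgroup.mem_bot.1 (hb ▸ hm))
  have h4 := hM.2 _ (finite_normalizer hc M hM.1 hMb) Subgroup.le_normalizer
  rw [← h4, Subgroup.mem_normalizer_iff]
  intro z
  constructor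
  · intro hz
    rw [h1, mem_cj]
    have e : g⁻¹ * (g * z * g⁻¹) * g = z := by group
    rw [e]
    exact hz
  · intro hz
    rw [h1, mem_cj] at hz
    have e : g⁻¹ * (g * z * g⁻¹) * g = z := by group
    rwa [e] at hz

end Pool.Agent.Helper76.WM
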