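import Pool.Agent.Helper76.WM.Contract

/-!
# MP_b731ff_al: contracting groups, small alphabets
-/

set_option autoImplicit false

namespace Pool.Agent.Helper76.WM

open Subgroup (closure centralizer)
open Filter
open scoped Pointwise

section Tree

variable {α Γ : Type*} [Finite α] [Group Γ] [MulAction Γ (List α)]

/-- an element of prime order at least five fixes all words over at most four letters -/
theorem smul_eq_of_prime (hα : Nat.card α ≤ 4)
    (hlen : ∀ (g : Γ) (w : List α), (g • w).length = w.length)
    (sec : Γ → List α → Γ)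
    (hsec : ∀ (g : Γ) (v w : List α), g • (v ++ w) = (g • v) ++ (sec g v) • w)
    (p : ℕ) (hp : p.Prime) (hp5 : 5 ≤ p) (h : Γ) (hh : orderOf h = p) (w : List α) :
    h • w = w := by
  induction w using List.reverseRecOn with
  | nil => exact List.eq_nil_of_length_eq_zero (by rw [hlen]; rfl)
  | append_singleton v a ih =>
    have hpow : ∀ i : ℕ, (h ^ i) • v = v := by
      intro i
      induction i with
      | zero => rw [pow_zero, one_smul]
      | succ i hi => rw [pow_succ, mul_smul, ih, hi]
    have hmem : ∀ i : ℕ, (h ^ i) • (v ++ [a]) ∈ Set.range (fun b : α => v ++ [b]) := by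
      intro i
      rw [hsec, hpow]
      have h1 : (sec (h ^ i) v • [a]).length = 1 := by rw [hlen]; rfl
      obtain ⟨b, hb⟩ := List.length_eq_one_iff.1 h1
      exact ⟨b, by rw [hb]⟩
    -- pigeonhole
    obtain ⟨i, j, hij, hj, heq⟩ : ∃ i j : ℕ, i < j ∧ j < 5 ∧
        (h ^ i) • (v ++ [a]) = (h ^ j) • (v ++ [a]) := by
      by_contra hcon
      push Not at hcon
      have hinj : Function.Injective (fun i : Fin 5 =>
          (⟨(h ^ (i : ℕ)) • (v ++ [a]), hmem i⟩ : Set.range (fun b : α => v ++ [b]))) := by
        intro i j hij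
        have h1 : (h ^ (i : ℕ)) • (v ++ [a]) = (h ^ (j : ℕ)) • (v ++ [a]) :=
          congrArg Subtype.val hij
        rcases lt_trichotomy (i : ℕ) j with h2 | h2 | h2
        · exact absurd h1 (hcon i j h2 j.2)
        · exact Fin.ext h2
        · exact absurd h1.symm (hcon j i h2 i.2)
      have h1 := Nat.card_le_card_of_injective _ hinj
      have h2 : Nat.card (Set.range (fun b : α => v ++ [b])) ≤ Nat.card α :=
        Finite.card_range_le _
      rw [Nat.card_fin] at h1
      exact absurd (h1.trans (h2.trans hα)) (by decide)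
    have h1 : Function.IsPeriodicPt (fun x : List α => h • x) (j - i) (v ++ [a]) := by
      rw [Function.IsPeriodicPt, Function.IsFixedPt, smul_iterate]
      show (h ^ (j - i)) • (v ++ [a]) = v ++ [a]
      have h2 : (h ^ i) • ((h ^ (j - i)) • (v ++ [a])) = (h ^ i) • (v ++ [a]) := by
        rw [← mul_smul, ← pow_add, Nat.add_sub_cancel' hij.le, heq]
      exact smul_left_cancel _ h2
    have h2 : Function.IsPeriodicPt (fun x : List α => h • x) p (v ++ [a]) := by
      rw [Function.IsPeriodicPt, Function.IsFixedPt, smul_iterate]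
      show (h ^ p) • (v ++ [a]) = v ++ [a]
      rw [← hh, pow_orderOf_eq_one, one_smul]
    have h3 := h1.gcd h2
    have h4 : (j - i).gcd p = 1 := by
      rw [Nat.gcd_comm]
      refine (Nat.Prime.coprime_iff_not_dvd hp).2 ?_
      intro hd
      have := Nat.le_of_dvd (by omega) hd
      omega
    rw [h4] at h3
    exact h3

/-- finite subgroups of odd order are nilpotent for at most four letters -/
theorem nilpotent_of_small (hα : Nat.card α ≤ 4)
    (hfaith : ∀ g : Γ, (∀ w : List α, g • w = w) → g = 1)
    (hlen : ∀ (g : Γ) (w : List α), (g • w).length = w.length)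
    (sec : Γ → List α → Γ)
    (hsec : ∀ (g : Γ) (v w : List α), g • (v ++ w) = (g • v) ++ (sec g v) • w)
    (F : Subgroup Γ) (hF : Finite F) (hodd : Odd (Nat.card F)) : Group.IsNilpotent F := by
  have : Fact (Nat.Prime 3) := ⟨Nat.prime_three⟩
  have hpp : ∀ p : ℕ, p.Prime → p ∣ Nat.card F → p = 3 := by
    intro p hp hd
    by_contra h3
    have h2 : p ≠ 2 := by
      rintro rfl
      rw [← Nat.not_even_iff_odd, even_iff_two_dvd] at hodd
      exact hodd hd
    have h4 : p ≠ 4 := by
      rintro rfl
      exact absurd hp (by decide)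
    have h5 : 5 ≤ p := by
      have := hp.two_le
      omega
    have : Fact p.Prime := ⟨hp⟩
    obtain ⟨z, hz⟩ := exists_prime_orderOf_dvd_card' p hd
    have h6 : (z : Γ) = 1 := by
      apply hfaith
      intro w
      refine smul_eq_of_prime hα hlen sec hsec p hp h5 (z : Γ) ?_ w
      rw [Subgroup.orderOf_coe, hz]
    rw [← Subgroup.orderOf_coe, h6, orderOf_one] at hz
    exact hp.one_lt.ne hz
  have hpg : IsPGroup 3 F := by
    rw [IsPGroup.iff_card]
    refine ⟨_, Nat.eq_prime_pow_of_unique_prime_dvd Nat.card_pos.ne' ?_⟩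
    intro d hd hdd
    exact hpp d hd hdd
  exact hpg.isNilpotent

/-- **contracting groups** -/
theorem finite_of_contracting (hfaith : ∀ g : Γ, (∀ w : List α, g • w = w) → g = 1)
    (hlen : ∀ (g : Γ) (w : List α), (g • w).length = w.length)
    (sec : Γ → List α → Γ)
    (hsec : ∀ (g : Γ) (v w : List α), g • (v ++ w) = (g • v) ++ (sec g v) • w)
    (N : Set Γ) (hN : N.Finite)
    (hcontr : ∀ g : Γ, ∃ m : ℕ, ∀ v : List α, m ≤ v.length → sec g v ∈ N)
    (G : Subgroup Γ) (htor : ∀ g : G, IsOfFinOrder g)
    (hmin : ∀ H : ℕ → Subgroup G, Antitone H →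
        ∃ n : ℕ, ∀ m : ℕ, n ≤ m → ((H (m + 1)).subgroupOf (H m)).index ≠ 0)
    (hnil : Nat.card α ≤ 4 ∨
      ∀ F : Subgroup G, Finite F → Odd (Nat.card F) → Group.IsNilpotent F) : Finite G := by
  have hnil' : ∀ F : Subgroup G, Finite F → Odd (Nat.card F) → Group.IsNilpotent F := by
    rcases hnil with hα | hnil
    · intro F hF hodd
      have e := F.equivMapOfInjective G.subtype G.subtype_injective
      have hF' : Finite (F.map G.subtype) := Finite.of_equiv _ e.toEquiv
      have h1 : Nat.card F = Nat.card (F.map G.subtype) := Nat.card_congr e.toEquiv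
      rw [h1] at hodd
      have := nilpotent_of_small hα hfaith hlen sec hsec _ hF' hodd
      exact (Group.isNilpotent_congr e).2 this
    · exact hnil
  refine finite_of_polyOrb G (List α) htor (rf_of_tree hfaith hlen G) hmin hnil' ?_
    (polyOrb_of_contracting hfaith hlen sec hsec N hN hcontr G)
  intro g hg
  exact Subtype.ext (hfaith g hg)

end Tree

end Pool.Agent.Helper76.WM
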